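import Pool.Agent.Lib_helper4.LDK.Defs
import Pool.Agent.Lib_helper33.LDK.Resb
import Pool.Agent.Lib_helper95.LDK.Recip
import Pool.Agent.Lib_helper95.LDK.Lim
import Pool.Agent.Lib_helper96.LDK.SH1
import Pool.Agent.Lib_helper59.LDK.Sts

/-! # LDK, block SHC: the two functions `psi R v w`, `psi R w v` are sheets -/

set_option autoImplicit false

open scoped BigOperators ComplexOrder Kronecker MatrixOrder Topology
open MeasureTheory Set Matrix Filter

namespace Pool.Agent.LDK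

open Pool.Agent.RC

variable {κ : Type} [Fintype κ] [DecidableEq κ]

/-- the function `psi` is a Stieltjes sheet -/
theorem shc_std (R : Matrix κ κ ℂ) (hR : R.PosDef) (v w : κ → ℂ)
    (h : LinearIndependent ℂ ![v, w]) :
    ∃ (b0 b1 C β al : ℝ) (μ : Measure ℝ), 0 < b0 ∧ 0 < psi R v w 0 ∧
      StD b0 b1 C (psi R v w) β al μ := by
  obtain ⟨a0, a1, c, L, h0, h01, hc, hL, hcL, hlim⟩ := lp_seq R hR v w h
  obtain ⟨C, hC⟩ := recip h0 h01 hc
  have h1 : 0 < a1 := lt_of_lt_of_le h0 h01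
  obtain ⟨β, al, μ, hstd⟩ := std_lim (b0 := a1⁻¹) (b1 := a0⁻¹) (C := C) (inv_pos.2 h1)
    (fun j x => (L j x)⁻¹) (psi R v w) (fun j => hC (L j) (hL j) (hcL j))
    (fun x hx => (hlim x hx).2.inv₀ (hlim x hx).1.ne')
  exact ⟨a1⁻¹, a0⁻¹, C, β, al, μ, inv_pos.2 h1, inv_pos.2 (hlim 0 le_rfl).1, hstd⟩

omit [Fintype κ] [DecidableEq κ] in
theorem shc_swap {v w : κ → ℂ} (h : LinearIndependent ℂ ![v, w]) :
    LinearIndependent ℂ ![w, v] :=
  LinearIndependent.pair_symm_iff.1 h

/-- the slope of the minus sheet is at least `1 / l` -/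
theorem shc_slope (R : Matrix κ κ ℂ) (hR : R.PosDef) (v w : κ → ℂ)
    (h : LinearIndependent ℂ ![v, w]) {l : ℝ} (hl : 0 ≤ l)
    (hS : ((l : ℂ) • R + (vecMulVec v (star v) - vecMulVec w (star w))).PosSemidef)
    {n : ℝ} (hn : 0 ≤ n) : n < psi R w v (l * n) := by
  have key := (sh_scalar R hR v w h (b := l * n) (n := n) (r := 1) (mul_nonneg hl hn)
    one_pos ?_).2.1
  · simpa using key
  · have h1 : ((1 : ℝ) : ℂ) • (1 : Matrix κ κ ℂ) + ((l * n : ℝ) : ℂ) • R +
        (n : ℂ) • (vecMulVec v (star v) - vecMulVec w (star w)) =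
        (1 : Matrix κ κ ℂ) +
          (n : ℂ) • ((l : ℂ) • R + (vecMulVec v (star v) - vecMulVec w (star w))) := by
      rw [smul_add (n : ℂ) ((l : ℂ) • R), smul_smul, ← add_assoc]
      simp [mul_comm]
    rw [h1]
    refine PosDef.one.add_posSemidef ?_
    exact hS.smul (by exact_mod_cast hn)

theorem sheet_plus (R : Matrix κ κ ℂ) (hR : R.PosDef) (v w : κ → ℂ)
    (h : LinearIndependent ℂ ![v, w]) {l : ℝ} (hl : 0 ≤ l) : Sheet l (psi R v w) 1 := by
  obtain ⟨b0, b1, C, β, al, μ, hb, hpos, hstd⟩ := shc_std R hR v w h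
  exact std_sheet hb hstd hpos (by have := mul_nonneg hl hstd.al0; linarith)

theorem sheet_minus (R : Matrix κ κ ℂ) (hR : R.PosDef) (v w : κ → ℂ)
    (h : LinearIndependent ℂ ![v, w]) {l : ℝ} (hl : 0 ≤ l)
    (hS : ((l : ℂ) • R + (vecMulVec v (star v) - vecMulVec w (star w))).PosSemidef) :
    Sheet l (psi R w v) (-1) := by
  obtain ⟨b0, b1, C, β, al, μ, hb, hpos, hstd⟩ := shc_std R hR w v (shc_swap h)
  refine std_sheet hb hstd hpos ?_
  have hlt : ∀ n : ℝ, 0 ≤ n → n < psi R w v (l * n) := fun n hn => shc_slope R hR v w h hl hS hn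
  rcases hl.eq_or_lt with h0 | h0
  · exfalso
    subst h0
    have := hlt (psi R w v 0) hpos.le
    simp at this
  · have hlim := std_slope hb hstd
    have hge : l⁻¹ ≤ al := by
      refine ge_of_tendsto hlim ?_
      filter_upwards [eventually_gt_atTop (0 : ℝ)] with x hx
      have h1 := hlt (x / l) (by positivity)
      rw [mul_div_cancel₀ _ h0.ne'] at h1
      rw [le_div_iff₀ hx]
      have h2 : l⁻¹ * x = x / l := by field_simp
      rw [h2]
      exact h1.le
    have h3 : 1 ≤ l * al := by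
      have := mul_le_mul_of_nonneg_left hge h0.le
      rwa [mul_inv_cancel₀ h0.ne'] at this
    linarith

end Pool.Agent.LDK
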